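import Mathlib

open MeasureTheory Filter Topology Set
open scoped ENNReal

namespace Pool.Agent.X194.TP

/-- Parity of the binary digit sum. -/
def t : ℕ → ZMod 2
  | 0 => 0
  | n + 1 => ((n + 1 : ℕ) : ZMod 2) + t ((n + 1) / 2)
decreasing_by omega

theorem t_zero : t 0 = 0 := by rw [t]

theorem t_eq (n : ℕ) : t n = (n : ZMod 2) + t (n / 2) := by
  cases n with
  | zero => simp [t]
  | succ n => rw [t]

theorem t_one : t 1 = 1 := by rw [t_eq]; simp [t_zero]

theorem t_two : t 2 = 1 := by rw [t_eq]; simp [t_one]; decide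

theorem t_three : t 3 = 0 := by rw [t_eq]; simp [t_one]; decide

theorem t_add (K : ℕ) : ∀ a b, a < 2 ^ K → t (a + 2 ^ K * b) = t a + t b := by
  induction K with
  | zero =>
    intro a b h
    have : a = 0 := by simpa using h
    subst this; simp [t_zero]
  | succ K ih =>
    intro a b h
    rw [t_eq (a + 2 ^ (K+1) * b), t_eq a]
    have h0 : a + 2 ^ (K+1) * b = a + 2 * (2 ^ K * b) := by ring
    have h1 : (a + 2 ^ (K+1) * b) / 2 = a / 2 + 2 ^ K * b := by
      rw [h0]; omega
    have h2 : ((a + 2 ^ (K+1) * b : ℕ) : ZMod 2) = a := by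
      rw [h0]; push_cast
      have : (2 : ZMod 2) = 0 := by decide
      rw [this]; ring
    have h3 : a / 2 < 2 ^ K := by rw [pow_succ] at h; omega
    rw [h1, h2, ih _ _ h3]; ring

/-- Residue modulo `2 ^ K`. -/
noncomputable def r (K : ℕ) (z : ℤ_[2]) : ℕ := (PadicInt.toZModPow K z).val

theorem r_lt (K : ℕ) (z : ℤ_[2]) : r K z < 2 ^ K := by
  have : NeZero (2 ^ K) := ⟨by positivity⟩
  exact ZMod.val_lt _

theorem r_cast (K : ℕ) (z : ℤ_[2]) : ((r K z : ℕ) : ZMod (2 ^ K)) = PadicInt.toZModPow K z := by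
  have : NeZero (2 ^ K) := ⟨by positivity⟩
  exact ZMod.natCast_zmod_val _

theorem r_unique {K : ℕ} {z : ℤ_[2]} {a : ℕ} (ha : a < 2 ^ K)
    (h : PadicInt.toZModPow K z = ((a : ℕ) : ZMod (2 ^ K))) : r K z = a := by
  unfold r
  rw [h]
  exact ZMod.val_natCast_of_lt ha

theorem r_mod {k K : ℕ} (h : k ≤ K) (z : ℤ_[2]) : r K z % 2 ^ k = r k z := by
  symm
  apply r_unique (Nat.mod_lt _ (by positivity))
  rw [← PadicInt.cast_toZModPow k K h z, ← r_cast K z]
  have : NeZero (2 ^ K) := ⟨by positivity⟩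
  rw [ZMod.cast_natCast (pow_dvd_pow 2 h)]
  exact (ZMod.natCast_mod _ _).symm

theorem r_add_nat (K : ℕ) (z : ℤ_[2]) (m : ℕ) : r K (z + m) = (r K z + m) % 2 ^ K := by
  apply r_unique (Nat.mod_lt _ (by positivity))
  rw [map_add, map_natCast, ← r_cast K z, ZMod.natCast_mod]
  push_cast; rfl

theorem r_add_int (K : ℕ) (z : ℤ_[2]) (n : ℤ) (h0 : 0 ≤ (r K z : ℤ) + n)
    (h1 : (r K z : ℤ) + n < 2 ^ K) : (r K (z + n) : ℤ) = r K z + n := by
  obtain ⟨m, hm⟩ := Int.eq_ofNat_of_zero_le h0
  rw [hm]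
  rw [hm] at h1
  have : r K (z + n) = m := by
    apply r_unique (by exact_mod_cast h1)
    rw [map_add, map_intCast, ← r_cast K z]
    have : ((((r K z : ℤ) + n : ℤ)) : ZMod (2 ^ K)) = ((m : ℤ) : ZMod (2 ^ K)) := by rw [hm]
    push_cast at this
    exact_mod_cast this
  rw [this]

theorem r_natCast (K m : ℕ) : r K (m : ℤ_[2]) = m % 2 ^ K := by
  have h0 : r K (0 : ℤ_[2]) = 0 := r_unique (by positivity) (by simp)
  have := r_add_nat K 0 m
  rw [zero_add, h0, zero_add] at this
  exact this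

theorem r_eq_iff {K : ℕ} {z w : ℤ_[2]} : r K z = r K w ↔ ‖z - w‖ ≤ (2 : ℝ) ^ (-K : ℤ) := by
  have h := PadicInt.norm_le_pow_iff_mem_span_pow (z - w) K
  have h2 : ((2 : ℕ) : ℝ) = 2 := by norm_num
  rw [h2] at h
  rw [h, ← PadicInt.ker_toZModPow, RingHom.mem_ker, map_sub, sub_eq_zero]
  constructor
  · intro h
    rw [← r_cast, ← r_cast, h]
  · intro h
    unfold r
    rw [h]

theorem isOpen_r (K a : ℕ) : IsOpen {z : ℤ_[2] | r K z = a} := by
  rw [Metric.isOpen_iff]
  intro z hz
  refine ⟨(2 : ℝ) ^ (-K : ℤ), by positivity, fun w hw => ?_⟩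
  rw [Metric.mem_ball, dist_eq_norm] at hw
  rw [Set.mem_ofPred_eq, ← (show r K z = a from hz)]
  exact r_eq_iff.mpr hw.le

noncomputable instance : MeasurableSpace ℤ_[2] := borel _
instance : BorelSpace ℤ_[2] := ⟨rfl⟩

theorem measurable_r (K : ℕ) : Measurable (r K) := by
  apply measurable_to_countable'
  intro a
  exact (isOpen_r K a).measurableSet

/-- Haar probability measure on `ℤ_[2]`. -/
noncomputable def P : Measure ℤ_[2] := Measure.addHaarMeasure ⊤

instance : Measure.IsAddHaarMeasure P := by unfold P; infer_instance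

instance : IsProbabilityMeasure P := ⟨by
  have := Measure.addHaarMeasure_self (K₀ := (⊤ : TopologicalSpace.PositiveCompacts ℤ_[2]))
  simpa [P] using this⟩

theorem mp_add (c : ℤ_[2]) : MeasurePreserving (fun z => z + c) P P :=
  measurePreserving_add_right P c

theorem P_r_eq (K : ℕ) {a : ℕ} (ha : a < 2 ^ K) : P {z | r K z = a} = (2 ^ K)⁻¹ := by
  have key : ∀ a, a < 2 ^ K → P {z | r K z = a} = P {z | r K z = 0} := by
    intro a
    induction a with
    | zero => intro _; rfl
    | succ a ih =>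
      intro h
      rw [← ih (by omega)]
      have h1 := (mp_add (1 : ℤ_[2])).measure_preimage
        (s := {z | r K z = a + 1}) (isOpen_r K _).measurableSet.nullMeasurableSet
      rw [← h1]
      congr 1
      ext z
      simp only [Set.mem_preimage, Set.mem_ofPred_eq]
      have h2 := r_add_nat K z 1
      push_cast at h2
      rw [h2]
      have h3 := r_lt K z
      rcases Nat.lt_or_ge (r K z + 1) (2 ^ K) with h4 | h4
      · rw [Nat.mod_eq_of_lt h4]; omega
      · have h5 : r K z + 1 = 2 ^ K := by omega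
        rw [h5, Nat.mod_self]; omega
  have hU : (Set.univ : Set ℤ_[2]) = ⋃ a ∈ Finset.range (2 ^ K), {z | r K z = a} := by
    ext z
    simp only [Set.mem_univ, Set.mem_iUnion, Set.mem_ofPred_eq, true_iff, Finset.mem_range]
    exact ⟨r K z, r_lt K z, rfl⟩
  have hsum : P (Set.univ) = ∑ a ∈ Finset.range (2 ^ K), P {z | r K z = a} := by
    rw [hU]
    apply measure_biUnion_finset
    · intro a _ b _ hab
      rw [Function.onFun, Set.disjoint_left]
      intro z hz hz'
      exact hab (hz.symm.trans hz')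
    · intro a _
      exact (isOpen_r K a).measurableSet
  rw [measure_univ, Finset.sum_congr rfl (fun a ha => key a (Finset.mem_range.mp ha)),
    Finset.sum_const, Finset.card_range, nsmul_eq_mul] at hsum
  rw [key a ha]
  have h2 : ((2 ^ K : ℕ) : ℝ≥0∞) = 2 ^ K := by push_cast; rfl
  rw [h2] at hsum
  rw [mul_comm] at hsum
  exact ENNReal.eq_inv_of_mul_eq_one_left hsum.symm

theorem P_r_mem (K : ℕ) (S : Finset ℕ) (hS : ∀ a ∈ S, a < 2 ^ K) :
    P {z | r K z ∈ S} = S.card * (2 ^ K)⁻¹ := by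
  have hU : {z : ℤ_[2] | r K z ∈ S} = ⋃ a ∈ S, {z | r K z = a} := by
    ext z
    simp
  rw [hU, measure_biUnion_finset]
  · rw [Finset.sum_congr rfl (fun a ha => P_r_eq K (hS a ha)), Finset.sum_const, nsmul_eq_mul]
  · intro a _ b _ hab
    rw [Function.onFun, Set.disjoint_left]
    intro z hz hz'
    exact hab (hz.symm.trans hz')
  · intro a _
    exact (isOpen_r K a).measurableSet

theorem measurableSet_r (K : ℕ) (p : ℕ → Prop) : MeasurableSet {z : ℤ_[2] | p (r K z)} :=
  measurable_r K (MeasurableSet.of_discrete (s := {n | p n}))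

end Pool.Agent.X194.TP
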