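import Pool.Agent.X194.TP.PR

open MeasureTheory Filter Topology Set
open scoped ENNReal symmDiff

namespace Pool.Agent.X194.TP

/-- block boundaries -/
def a : ℕ → ℕ
  | 0 => 0
  | i + 1 => a i + (i + 6)

theorem a_succ (i : ℕ) : a (i + 1) = a i + (i + 6) := rfl

theorem a_mono : Monotone a := monotone_nat_of_le_succ fun i => by rw [a_succ]; omega

theorem le_a (i : ℕ) : i ≤ a i := by
  induction i with
  | zero => omega
  | succ i ih => rw [a_succ]; omega

/-- block `i` of `z` is zero -/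
def Zb (i : ℕ) (z : ℤ_[2]) : Prop := r (a (i+1)) z < 2 ^ a i

open Classical in
/-- The coding function. -/
noncomputable def F (ω : Om) : ZMod 2 :=
  if h : ∃ i, Zb i ω.1 then t (r (a (Nat.find h)) ω.1) else ω.2

theorem F_first {z : ℤ_[2]} {i : ℕ} (h : Zb i z) (hj : ∀ j < i, ¬ Zb j z) (e : ZMod 2) :
    F (z, e) = t (r (a i) z) := by
  classical
  unfold F
  have hex : ∃ i, Zb i z := ⟨i, h⟩
  rw [dif_pos hex]
  have : Nat.find hex = i := (Nat.find_eq_iff hex).mpr ⟨h, hj⟩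
  rw [this]

theorem F_none {z : ℤ_[2]} (h : ∀ i, ¬ Zb i z) (e : ZMod 2) : F (z, e) = e := by
  classical
  unfold F
  rw [dif_neg (by push Not; exact h)]

theorem measurableSet_Zb (i : ℕ) : MeasurableSet {z | Zb i z} :=
  measurableSet_r (a (i+1)) (fun n => n < 2 ^ a i)

theorem isOpen_Zb (i : ℕ) : IsOpen {z | Zb i z} :=
  isOpen_lev ⟨a (i+1), {n | n < 2 ^ a i}, rfl⟩

theorem measurable_F : Measurable F := by
  classical
  apply measurable_to_countable'
  intro x
  have : F ⁻¹' {x} = (⋃ i, Prod.fst ⁻¹' ({z | Zb i z} ∩ ((⋂ j ∈ Finset.range i, {z | Zb j z}ᶜ) ∩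
      {z | t (r (a i) z) = x}))) ∪ ((Prod.fst ⁻¹' (⋂ i, {z | Zb i z}ᶜ)) ∩ Prod.snd ⁻¹' {x}) := by
    ext ⟨z, e⟩
    by_cases h : ∃ i, Zb i z
    · have h1 := Nat.find_spec h
      have h2 : ∀ j < Nat.find h, ¬ Zb j z := fun j hj => Nat.find_min h hj
      have hF := F_first h1 h2 e
      simp only [Set.mem_preimage, Set.mem_singleton_iff, Set.mem_union, Set.mem_iUnion,
        Set.mem_inter_iff, Set.mem_iInter, Set.mem_compl_iff, Set.mem_ofPred_eq, Finset.mem_range]
      rw [hF]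
      constructor
      · intro hx
        left; exact ⟨_, h1, h2, hx⟩
      · rintro (⟨i, hi1, hi2, hi3⟩ | ⟨hn, _⟩)
        · have : Nat.find h = i := (Nat.find_eq_iff h).mpr ⟨hi1, hi2⟩
          rw [this]; exact hi3
        · exact absurd h (by push Not; exact hn)
    · push Not at h
      have hF := F_none h e
      simp only [Set.mem_preimage, Set.mem_singleton_iff, Set.mem_union, Set.mem_iUnion,
        Set.mem_inter_iff, Set.mem_iInter, Set.mem_compl_iff, Set.mem_ofPred_eq, Finset.mem_range]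
      rw [hF]
      constructor
      · intro hx; right; exact ⟨h, hx⟩
      · rintro (⟨i, hi1, _⟩ | ⟨_, hx⟩)
        · exact absurd hi1 (h i)
        · exact hx
  rw [this]
  refine MeasurableSet.union (MeasurableSet.iUnion fun i => measurable_fst ?_)
    ((measurable_fst ?_).inter (measurable_snd (MeasurableSet.of_discrete)))
  · refine (measurableSet_Zb i).inter (MeasurableSet.inter ?_ ?_)
    · exact Finset.measurableSet_biInter _ fun j _ => (measurableSet_Zb j).compl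
    · exact measurableSet_r (a i) (fun n => t n = x)
  · exact MeasurableSet.iInter fun j => (measurableSet_Zb j).compl

theorem lt_iff_aux {x k b d : ℕ} (h : x < 2 ^ k) : x + 2 ^ k * b < 2 ^ k * d ↔ b < d := by
  constructor
  · intro h1
    by_contra h2
    have := Nat.mul_le_mul_left (2 ^ k) (not_lt.mp h2)
    omega
  · intro h1
    have := Nat.mul_le_mul_left (2 ^ k) (Nat.succ_le_of_lt h1)
    rw [Nat.mul_succ] at this
    omega

theorem win {k K : ℕ} (h : k ≤ K) (z : ℤ_[2]) (n : ℤ) (q : ℕ) (hq : (q : ℤ) = r k z + n)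
    (hlt : q < 2 ^ k) : r K (z + n) = q + 2 ^ k * (r K z / 2 ^ k) := by
  obtain ⟨d, hd⟩ := pow_dvd_pow 2 h
  have h1 := r_split h z
  have h2 := r_lt K z
  have h3 := r_lt k z
  set b := r K z / 2 ^ k with hb
  have hbd : b < d := by
    rw [h1, hd] at h2
    exact (lt_iff_aux h3).mp h2
  have h4 : q + 2 ^ k * b < 2 ^ K := by
    rw [hd]; exact (lt_iff_aux hlt).mpr hbd
  have h5 : (r K z : ℤ) + n = ((q + 2 ^ k * b : ℕ) : ℤ) := by
    have h1' : (r K z : ℤ) = r k z + ((2 ^ k * b : ℕ) : ℤ) := by exact_mod_cast h1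
    rw [h1', Nat.cast_add, hq]; ring
  have h6 := r_add_int K z n (by rw [h5]; positivity) (by rw [h5]; exact_mod_cast h4)
  rw [h5] at h6
  exact_mod_cast h6

theorem Zb_win {N i : ℕ} (h : N ≤ i) (z : ℤ_[2]) (n : ℤ) (q : ℕ) (hq : (q : ℤ) = r (a N) z + n)
    (hlt : q < 2 ^ a N) : Zb i (z + n) ↔ Zb i z := by
  unfold Zb
  have h1 : a N ≤ a (i + 1) := a_mono (by omega)
  rw [win h1 z n q hq hlt]
  nth_rewrite 2 [r_split h1 z]
  obtain ⟨d, hd⟩ := pow_dvd_pow 2 (a_mono h)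
  rw [hd, lt_iff_aux hlt, lt_iff_aux (r_lt _ z)]

theorem Zb_low {j N : ℕ} {u v : ℤ_[2]} (hj : j < N) (h : r (a N) u = r (a N) v) :
    Zb j u ↔ Zb j v := by
  unfold Zb
  have h1 : a (j + 1) ≤ a N := a_mono (by omega)
  rw [← r_mod h1 u, ← r_mod h1 v, h]

theorem F_low {N : ℕ} {u v : ℤ_[2]} (h : r (a N) u = r (a N) v) (hex : ∃ j < N, Zb j u)
    (e e' : ZMod 2) : F (u, e) = F (v, e') := by
  classical
  obtain ⟨j, hj, hjZ⟩ := hex
  have h0 : ∃ i, Zb i u := ⟨j, hjZ⟩
  have h1 := Nat.find_spec h0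
  have h2 : ∀ j < Nat.find h0, ¬ Zb j u := fun j hj => Nat.find_min h0 hj
  have h3 : Nat.find h0 < N := lt_of_le_of_lt (Nat.find_min' h0 hjZ) hj
  rw [F_first h1 h2 e, F_first ((Zb_low h3 h).mp h1)
    (fun j hj => fun hc => h2 j hj ((Zb_low (by omega) h).mpr hc)) e',
    ← r_mod (a_mono h3.le) u, ← r_mod (a_mono h3.le) v, h]

theorem F_type {N i : ℕ} (hi : N ≤ i) {z : ℤ_[2]} (hz : Zb i z)
    (hzj : ∀ j, N ≤ j → j < i → ¬ Zb j z) (n : ℤ) (q : ℕ) (hq : (q : ℤ) = r (a N) z + n)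
    (hlt : q < 2 ^ a N) (hlow : ∀ j < N, ¬ Zb j (z + n)) (e : ZMod 2) :
    F (z + n, e) = t q + t (r (a i) z / 2 ^ a N) := by
  rw [F_first ((Zb_win hi z n q hq hlt).mpr hz) ?_ e, win (a_mono hi) z n q hq hlt, t_add _ _ _ hlt]
  intro j hj
  rcases lt_or_ge j N with h | h
  · exact hlow j h
  · rw [Zb_win h z n q hq hlt]; exact hzj j h hj

theorem exists_type (N : ℕ) (z : ℤ_[2]) (e : ZMod 2) :
    ∃ τ : ZMod 2, ∀ (n : ℤ) (q : ℕ), (q : ℤ) = r (a N) z + n → q < 2 ^ a N →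
      (∀ j < N, ¬ Zb j (z + n)) → F ((T ^ n) (z, e)) = t q + τ := by
  classical
  by_cases h : ∃ i, N ≤ i ∧ Zb i z
  · obtain ⟨h1, h2⟩ := Nat.find_spec h
    refine ⟨t (r (a (Nat.find h)) z / 2 ^ a N), fun n q hq hlt hlow => ?_⟩
    have h3 : (T ^ n) (z, e) = (z + n, ((T ^ n) (z, e)).2) := by
      ext
      · exact T_zpow_fst n (z, e)
      · rfl
    rw [h3]
    exact F_type h1 h2 (fun j hj hj' hc => Nat.find_min h hj' ⟨hj, hc⟩) n q hq hlt hlow _
  · push Not at h
    refine ⟨e + t (r (a N) z), fun n q hq hlt hlow => ?_⟩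
    rw [T_zpow_eq (a N) n z e q hq hlt, F_none]
    · ring
    · intro i
      rcases lt_or_ge i N with hi | hi
      · exact hlow i hi
      · rw [Zb_win hi z n q hq hlt]; exact h i hi

/-- Good points -/
def Good : Set ℤ_[2] := {z | ∀ L : ℕ, ∃ N, L ≤ r (a N) z ∧ r (a N) z + L < 2 ^ a N}

theorem P_r_le (K : ℕ) (b : ℕ) : P {z | r K z = b} ≤ (2 ^ K)⁻¹ := by
  rcases lt_or_ge b (2 ^ K) with h | h
  · exact (P_r_eq K h).le
  · have : {z : ℤ_[2] | r K z = b} = ∅ := by
      ext z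
      simp only [Set.mem_ofPred_eq, Set.mem_empty_iff_false, iff_false]
      have := r_lt K z
      omega
    rw [this]; simp

theorem P_r_mem_le (K : ℕ) (S : Finset ℕ) : P {z | r K z ∈ S} ≤ S.card * (2 ^ K)⁻¹ := by
  have hU : {z : ℤ_[2] | r K z ∈ S} = ⋃ a ∈ S, {z | r K z = a} := by
    ext z
    simp
  rw [hU]
  refine le_trans (measure_biUnion_finset_le _ _) ?_
  refine le_trans (Finset.sum_le_sum fun a _ => P_r_le K a) ?_
  rw [Finset.sum_const, nsmul_eq_mul]

theorem P_Good : P Goodᶜ = 0 := by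
  have hsub : Goodᶜ ⊆ ⋃ L : ℕ, ⋂ N : ℕ, {z | r (a N) z ∈
      (Finset.range L ∪ Finset.Ico (2 ^ a N - L) (2 ^ a N))} := by
    intro z hz
    simp only [Good, Set.mem_compl_iff, Set.mem_ofPred_eq] at hz
    push Not at hz
    obtain ⟨L, hL⟩ := hz
    simp only [Set.mem_iUnion, Set.mem_iInter, Set.mem_ofPred_eq, Finset.mem_union,
      Finset.mem_range, Finset.mem_Ico]
    refine ⟨L, fun N => ?_⟩
    have h1 := r_lt (a N) z
    rcases lt_or_ge (r (a N) z) L with h | h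
    · left; exact h
    · right
      have := hL N h
      omega
  refine measure_mono_null hsub (measure_iUnion_null fun L => ?_)
  have hlim : Tendsto (fun N : ℕ => ((2 * L : ℕ) : ℝ≥0∞) * (2⁻¹ : ℝ≥0∞) ^ N) atTop (𝓝 0) := by
    have h1 : Tendsto (fun N : ℕ => (2⁻¹ : ℝ≥0∞) ^ N) atTop (𝓝 0) :=
      ENNReal.tendsto_pow_atTop_nhds_zero_of_lt_one (by simp)
    have h2 := ENNReal.Tendsto.const_mul (a := ((2 * L : ℕ) : ℝ≥0∞)) h1
      (Or.inr (ENNReal.natCast_ne_top _))
    rwa [mul_zero] at h2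
  refine le_antisymm (ge_of_tendsto' hlim fun N => ?_) bot_le
  refine le_trans (measure_mono (Set.iInter_subset _ N)) ?_
  refine le_trans (P_r_mem_le _ _) ?_
  have h3 : ((2 : ℝ≥0∞) ^ a N)⁻¹ ≤ 2⁻¹ ^ N := by
    rw [← ENNReal.inv_pow]
    exact ENNReal.inv_le_inv.mpr (pow_le_pow_right₀ (by norm_num) (le_a N))
  have h4 : (Finset.range L ∪ Finset.Ico (2 ^ a N - L) (2 ^ a N)).card ≤ 2 * L := by
    refine le_trans (Finset.card_union_le _ _) ?_
    rw [Finset.card_range, Nat.card_Ico]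
    omega
  gcongr

/-- The set with a zero block. -/
def Z : Set ℤ_[2] := {z | ∃ i, Zb i z}

theorem measurableSet_Z : MeasurableSet Z := by
  have : Z = ⋃ i, {z | Zb i z} := by ext z; simp [Z]
  rw [this]
  exact MeasurableSet.iUnion measurableSet_Zb

theorem P_Zb (i : ℕ) : P {z | Zb i z} ≤ (2⁻¹) ^ (i + 1) * (2 ^ 5)⁻¹ := by
  have h1 : {z | Zb i z} = {z | r (a (i+1)) z ∈ Finset.range (2 ^ a i)} := by
    ext z; simp [Zb]
  rw [h1]
  refine le_trans (P_r_mem_le _ _) ?_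
  rw [Finset.card_range, a_succ, pow_add, ENNReal.mul_inv (by left; positivity) (by left; simp)]
  push_cast
  rw [← mul_assoc, ENNReal.mul_inv_cancel (by positivity) (by simp), one_mul,
    show i + 6 = (i + 1) + 5 by ring, pow_add,
    ENNReal.mul_inv (by left; positivity) (by left; simp), ENNReal.inv_pow]

theorem P_Z : P Z ≤ (2 ^ 5)⁻¹ := by
  have : Z = ⋃ i, {z | Zb i z} := by ext z; simp [Z]
  rw [this]
  refine le_trans (measure_iUnion_le _) ?_
  refine le_trans (ENNReal.tsum_le_tsum P_Zb) ?_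
  rw [ENNReal.tsum_mul_right, ENNReal.tsum_geometric_add_one, ENNReal.one_sub_inv_two, inv_inv,
    ENNReal.inv_mul_cancel (by norm_num) (by norm_num), one_mul]

theorem F_ne {n : ℕ} (hn : 1 ≤ n) :
    8⁻¹ ≤ m {ω | F ω ≠ F ((T ^ n) ω)} + 16⁻¹ := by
  set B : Set Om := {ω | F ω ≠ F ((T ^ n) ω)} with hB
  have hBm : MeasurableSet B := by
    have : B = (fun ω => (F ω, F ((T ^ n) ω))) ⁻¹' {p | p.1 ≠ p.2} := rfl
    rw [this]
    exact (measurable_F.prodMk (measurable_F.comp (measurable_T_pow n))) (MeasurableSet.of_discrete)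
  have hsec : ∀ e, 8⁻¹ ≤ P (sec B e) + 16⁻¹ := by
    intro e
    have hsub : {z | cN n z = 1} ⊆ sec B e ∪ (Z ∪ (fun z => z + (n : ℤ_[2])) ⁻¹' Z) := by
      intro z hz
      by_cases h1 : z ∈ Z
      · right; left; exact h1
      by_cases h2 : z + (n : ℤ_[2]) ∈ Z
      · right; right; exact h2
      left
      have h3 : ∀ i, ¬ Zb i z := fun i hi => h1 ⟨i, hi⟩
      have h4 : ∀ i, ¬ Zb i (z + n) := fun i hi => h2 ⟨i, hi⟩
      change F (z, e) ≠ F ((T ^ n) (z, e))
      rw [T_pow_cN, F_none h3, F_none h4, show cN n z = 1 from hz]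
      intro h5
      have : (1 : ZMod 2) = 0 := by linear_combination -h5
      exact absurd this (by decide)
    calc (8 : ℝ≥0∞)⁻¹ ≤ P {z | cN n z = 1} := cN_large hn
      _ ≤ P (sec B e) + (P Z + P Z) := by
          refine le_trans (measure_mono hsub) (le_trans (measure_union_le _ _) ?_)
          gcongr
          refine le_trans (measure_union_le _ _) ?_
          rw [(mp_add (n : ℤ_[2])).measure_preimage measurableSet_Z.nullMeasurableSet]
      _ ≤ P (sec B e) + ((2 ^ 5)⁻¹ + (2 ^ 5)⁻¹) := by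
          gcongr <;> exact P_Z
      _ = P (sec B e) + 16⁻¹ := by
          congr 1
          rw [← two_mul, show (2 : ℝ≥0∞) ^ 5 = 2 * 16 by norm_num,
            ENNReal.mul_inv (by left; norm_num) (by left; norm_num), ← mul_assoc,
            ENNReal.mul_inv_cancel (by norm_num) (by norm_num), one_mul]
  rw [m_apply hBm]
  calc (8 : ℝ≥0∞)⁻¹ = 2⁻¹ * (8⁻¹ + 8⁻¹) := by
        rw [← two_mul, ← mul_assoc, ENNReal.inv_mul_cancel (by norm_num) (by norm_num), one_mul]
    _ ≤ 2⁻¹ * ((P (sec B 0) + 16⁻¹) + (P (sec B 1) + 16⁻¹)) := by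
        gcongr
        · exact hsec 0
        · exact hsec 1
    _ = 2⁻¹ * (P (sec B 0) + P (sec B 1)) + (2⁻¹ * 2) * 16⁻¹ := by ring
    _ = _ := by rw [ENNReal.inv_mul_cancel (by norm_num) (by norm_num), one_mul]

theorem exists_star : ∃ z : ℤ_[2], ∀ n : ℤ, ∃ i, Zb i (z + n) := by
  have hd : Dense (⋂ n : ℤ, (fun z : ℤ_[2] => z + (n : ℤ_[2])) ⁻¹' Z) := by
    apply dense_iInter_of_isOpen
    · intro n
      have : IsOpen Z := by
        have : Z = ⋃ i, {z | Zb i z} := by ext z; simp [Z]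
        rw [this]
        exact isOpen_iUnion isOpen_Zb
      exact this.preimage (by fun_prop)
    · intro n
      have hZ : Dense Z := by
        refine PadicInt.denseRange_natCast.mono ?_
        rintro _ ⟨k, rfl⟩
        refine ⟨k, ?_⟩
        unfold Zb
        rw [r_natCast]
        refine lt_of_le_of_lt (Nat.mod_le _ _) ?_
        exact lt_of_lt_of_le (Nat.lt_two_pow_self) (Nat.pow_le_pow_right (by norm_num) (le_a k))
      exact hZ.preimage (Homeomorph.addRight (n : ℤ_[2])).isOpenMap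
  obtain ⟨z, hz⟩ := hd.nonempty
  refine ⟨z, fun n => ?_⟩
  exact Set.mem_iInter.mp hz n

end Pool.Agent.X194.TP
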