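import Pool.Agent.X194.TP.Skew

open MeasureTheory Filter Topology Set
open scoped ENNReal symmDiff

namespace Pool.Agent.X194.TP

instance : SecondCountableTopology ℤ_[2] := by
  have : TopologicalSpace.SeparableSpace ℤ_[2] :=
    ⟨⟨Set.range (Nat.cast : ℕ → ℤ_[2]), Set.countable_range _, PadicInt.denseRange_natCast⟩⟩
  exact UniformSpace.secondCountable_of_separable ℤ_[2]

/-- level sets -/
def Lev : Set (Set ℤ_[2]) := {C | ∃ L : ℕ, ∃ S : Set ℕ, C = {z | r L z ∈ S}}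

theorem isOpen_lev {C : Set ℤ_[2]} (h : C ∈ Lev) : IsOpen C := by
  obtain ⟨L, S, rfl⟩ := h
  have : {z | r L z ∈ S} = ⋃ a ∈ S, {z | r L z = a} := by ext z; simp
  rw [this]
  exact isOpen_biUnion fun a _ => isOpen_r L a

theorem lev_algebra : IsSetAlgebra Lev where
  empty_mem := ⟨0, ∅, by simp⟩
  compl_mem := by
    rintro _ ⟨L, S, rfl⟩
    exact ⟨L, Sᶜ, by ext z; simp⟩
  union_mem := by
    rintro _ _ ⟨L1, S1, rfl⟩ ⟨L2, S2, rfl⟩
    refine ⟨max L1 L2, {a | a % 2 ^ L1 ∈ S1 ∨ a % 2 ^ L2 ∈ S2}, ?_⟩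
    ext z
    simp only [Set.mem_union, Set.mem_ofPred_eq]
    rw [r_mod (le_max_left L1 L2), r_mod (le_max_right L1 L2)]

theorem lev_basis : TopologicalSpace.IsTopologicalBasis Lev := by
  apply TopologicalSpace.isTopologicalBasis_of_isOpen_of_nhds
  · intro C hC; exact isOpen_lev hC
  · intro z U hz hU
    obtain ⟨ε, hε, hball⟩ := Metric.isOpen_iff.mp hU z hz
    obtain ⟨K, hK⟩ := exists_pow_lt_of_lt_one hε (show (1/2 : ℝ) < 1 by norm_num)
    refine ⟨{w | r K w ∈ ({r K z} : Set ℕ)}, ⟨K, {r K z}, rfl⟩, rfl, ?_⟩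
    intro w hw
    apply hball
    rw [Metric.mem_ball, dist_eq_norm]
    have h1 := r_eq_iff.mp (show r K w = r K z from hw)
    refine lt_of_le_of_lt h1 ?_
    have : (2 : ℝ) ^ (-K : ℤ) = (1/2 : ℝ) ^ K := by
      rw [zpow_neg, zpow_natCast, one_div, inv_pow]
    rw [this]; exact hK

theorem exists_approx {B : Set ℤ_[2]} (hB : MeasurableSet B) {ε : ℝ} (hε : 0 < ε) :
    ∃ L : ℕ, ∃ S : Set ℕ, P (B ∆ {z | r L z ∈ S}) < ENNReal.ofReal ε := by
  have hd : P.MeasureDense Lev :=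
    Measure.MeasureDense.of_generateFrom_isSetAlgebra_finite P lev_algebra
      (lev_basis.borel_eq_generateFrom)
  obtain ⟨C, ⟨L, S, rfl⟩, h⟩ := hd.approx B hB (measure_ne_top P B) ε hε
  exact ⟨L, S, h⟩

theorem ergodic_add_one : Ergodic (fun z : ℤ_[2] => 1 + z) P := by
  apply ergodic_add_left_of_denseRange_nsmul
  have : (fun n : ℕ => n • (1 : ℤ_[2])) = (Nat.cast : ℕ → ℤ_[2]) := by
    ext n; simp
  rw [this]
  exact PadicInt.denseRange_natCast

theorem cN_large {n : ℕ} (hn : 1 ≤ n) : 8⁻¹ ≤ P {z | cN n z = 1} := by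
  obtain ⟨K, hK1, hK2⟩ : ∃ K, 2 ^ K ≤ n ∧ n < 2 ^ (K + 1) :=
    ⟨Nat.log 2 n, Nat.pow_log_le_self 2 (by omega), Nat.lt_pow_succ_log_self (by norm_num) n⟩
  set O : Set ℤ_[2] := {z | r (K + 3) z ∈ Finset.Ico (2 ^ (K + 1) - n) (2 ^ (K + 1))} with hO
  have hp1 : 2 ^ (K + 1) = 2 * 2 ^ K := by ring
  have hp3 : 2 ^ (K + 3) = 8 * 2 ^ K := by ring
  have hmem : ∀ z, z ∈ O ↔ 2 ^ (K + 1) - n ≤ r (K + 3) z ∧ r (K + 3) z < 2 ^ (K + 1) := by
    intro z; rw [hO, Set.mem_ofPred_eq, Finset.mem_Ico]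
  have hPO : 8⁻¹ ≤ P O := by
    rw [hO, P_r_mem _ _ (by intro a ha; rw [Finset.mem_Ico] at ha; omega), Nat.card_Ico]
    have h1 : 2 ^ (K + 1) - (2 ^ (K + 1) - n) = n := by omega
    rw [h1]
    calc (8 : ℝ≥0∞)⁻¹ = ((2 ^ K : ℕ) : ℝ≥0∞) * (2 ^ (K + 3))⁻¹ := by
          have : (2 : ℝ≥0∞) ^ (K + 3) = 2 ^ K * 8 := by rw [pow_add]; norm_num
          rw [this, ENNReal.mul_inv (by left; positivity) (by left; simp)]
          push_cast
          rw [← mul_assoc, ENNReal.mul_inv_cancel (by positivity) (by simp), one_mul]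
      _ ≤ (n : ℝ≥0∞) * (2 ^ (K + 3))⁻¹ := by gcongr
  have hOm : MeasurableSet O := measurableSet_r (K + 3) (· ∈ Finset.Ico (2 ^ (K + 1) - n) (2 ^ (K + 1)))
  have hcm : MeasurableSet {z | cN n z = 1} := measurable_cN n (MeasurableSet.of_discrete (s := {1}))
  -- values
  have hval : ∀ z ∈ O, r (K + 3) (z + ((2 ^ (K + 1) : ℕ) : ℤ_[2])) = r (K + 3) z + 2 ^ (K + 1) ∧
      cN n (z + ((2 ^ (K + 1) : ℕ) : ℤ_[2])) = cN n z + 1 := by
    intro z hz
    rw [hmem] at hz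
    have h1 : r (K + 3) (z + ((2 ^ (K + 1) : ℕ) : ℤ_[2])) = r (K + 3) z + 2 ^ (K + 1) := by
      rw [r_add_nat, Nat.mod_eq_of_lt (by omega)]
    refine ⟨h1, ?_⟩
    rw [cN_eq (K := K + 3) (n := n) (z := z) (by omega),
      cN_eq (K := K + 3) (n := n) (by rw [h1]; omega), h1]
    obtain ⟨s, hs⟩ : ∃ s, r (K + 3) z + n = s + 2 ^ (K + 1) * 1 :=
      ⟨r (K + 3) z + n - 2 ^ (K + 1), by omega⟩
    have h2 : r (K + 3) z + 2 ^ (K + 1) + n = s + 2 ^ (K + 1) * 2 := by omega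
    have h3 : r (K + 3) z + 2 ^ (K + 1) = r (K + 3) z + 2 ^ (K + 1) * 1 := by omega
    rw [hs, h2, h3, t_add _ _ _ (by omega), t_add _ _ _ (by omega), t_add _ _ _ (by omega),
      t_one, t_two]
    ring
  have hsub : O ∩ {z | cN n z = 0} ⊆
      (fun z => z + ((2 ^ (K + 1) : ℕ) : ℤ_[2])) ⁻¹' (Oᶜ ∩ {z | cN n z = 1}) := by
    rintro z ⟨hz, hz0⟩
    obtain ⟨h1, h2⟩ := hval z hz
    refine ⟨?_, ?_⟩
    · intro h3
      rw [hmem, h1] at h3
      omega
    · rw [Set.mem_ofPred_eq, h2, show cN n z = 0 from hz0, zero_add]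
  have h4 : P (O ∩ {z | cN n z = 0}) ≤ P (Oᶜ ∩ {z | cN n z = 1}) := by
    rw [← (mp_add ((2 ^ (K + 1) : ℕ) : ℤ_[2])).measure_preimage
      (hOm.compl.inter hcm).nullMeasurableSet]
    exact measure_mono hsub
  calc (8 : ℝ≥0∞)⁻¹ ≤ P O := hPO
    _ ≤ P (O ∩ {z | cN n z = 1}) + P (O ∩ {z | cN n z = 0}) := by
        refine le_trans (measure_mono ?_) (measure_union_le _ _)
        intro z hz
        rcases z2_cases (cN n z) with h | h
        · right; exact ⟨hz, h⟩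
        · left; exact ⟨hz, h⟩
    _ ≤ P (O ∩ {z | cN n z = 1}) + P (Oᶜ ∩ {z | cN n z = 1}) := by gcongr
    _ = P {z | cN n z = 1} := by
        rw [Set.inter_comm O, Set.inter_comm Oᶜ, ← Set.sdiff_eq]
        exact measure_inter_add_sdiff _ hOm

theorem mem_lev_add {L K : ℕ} (h : L ≤ K) (S : Set ℕ) (z : ℤ_[2]) :
    r L (z + ((2 ^ K : ℕ) : ℤ_[2])) ∈ S ↔ r L z ∈ S := by
  rw [r_add_nat]
  have h1 : (r L z + 2 ^ K) % 2 ^ L = r L z := by
    obtain ⟨d, hd⟩ := pow_dvd_pow 2 h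
    rw [hd, Nat.add_mul_mod_self_left, Nat.mod_eq_of_lt (r_lt L z)]
  rw [h1]

theorem mem_T_pow_iff {A : Set Om} (hA : T ⁻¹' A = A) (n : ℕ) (ω : Om) :
    (T ^ n) ω ∈ A ↔ ω ∈ A := by
  induction n with
  | zero => simp
  | succ n ih =>
    rw [pow_succ', Equiv.Perm.mul_apply]
    rw [← ih]
    exact Set.ext_iff.mp hA _

theorem ergodic_T : Ergodic T m := by
  refine ⟨mp_T, ⟨fun A hA hinv => ?_⟩⟩
  have hA0 := measurableSet_sec hA 0
  have hA1 := measurableSet_sec hA 1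
  have hstep : ∀ z e, z ∈ sec A e ↔ z + 1 ∈ sec A (e + c1 z) := by
    intro z e
    exact (Set.ext_iff.mp hinv (z, e)).symm
  have hI : (fun z : ℤ_[2] => 1 + z) ⁻¹' (sec A 0 ∩ sec A 1) = sec A 0 ∩ sec A 1 := by
    ext z
    have h0 := hstep z 0
    have h1 := hstep z 1
    simp only [Set.mem_preimage, Set.mem_inter_iff, add_comm (1 : ℤ_[2]) z]
    rcases z2_cases (c1 z) with h | h
    · rw [h, add_zero] at h0 h1; rw [h0, h1]
    · rw [h] at h0 h1; rw [zero_add] at h0; rw [z2_self] at h1; rw [h0, h1, and_comm]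
  have hJ : (fun z : ℤ_[2] => 1 + z) ⁻¹' (sec A 0 ∪ sec A 1) = sec A 0 ∪ sec A 1 := by
    ext z
    have h0 := hstep z 0
    have h1 := hstep z 1
    simp only [Set.mem_preimage, Set.mem_union, add_comm (1 : ℤ_[2]) z]
    rcases z2_cases (c1 z) with h | h
    · rw [h, add_zero] at h0 h1; rw [h0, h1]
    · rw [h] at h0 h1; rw [zero_add] at h0; rw [z2_self] at h1; rw [h0, h1, or_comm]
  have eI := ergodic_add_one.toPreErgodic.aeconst_set (hA0.inter hA1) hI
  have eJ := ergodic_add_one.toPreErgodic.aeconst_set (hA0.union hA1) hJ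
  rw [Filter.eventuallyConst_set'] at eI eJ ⊢
  rcases eJ with eJ | eJ
  · left
    rw [ae_eq_empty] at eJ ⊢
    rw [m_apply hA]
    have h0 : P (sec A 0) = 0 := measure_mono_null Set.subset_union_left eJ
    have h1 : P (sec A 1) = 0 := measure_mono_null Set.subset_union_right eJ
    rw [h0, h1]; simp
  rcases eI with eI | eI
  · exfalso
    rw [ae_eq_empty] at eI
    rw [ae_eq_univ] at eJ
    obtain ⟨L, S, hLS⟩ := exists_approx hA0 (show (0 : ℝ) < 1 / 32 by norm_num)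
    set E := sec A 0 ∆ {z | r L z ∈ S} with hE
    have hEm : MeasurableSet E := hA0.symmDiff (measurableSet_r L (· ∈ S))
    set n := 2 ^ L with hn
    have hsub : {z | cN n z = 1} ⊆ E ∪ ((fun z => z + (n : ℤ_[2])) ⁻¹' E ∪
        ((fun z => z + (n : ℤ_[2])) ⁻¹' (sec A 0 ∩ sec A 1) ∪
          (fun z => z + (n : ℤ_[2])) ⁻¹' (sec A 0 ∪ sec A 1)ᶜ)) := by
      intro z hz
      by_contra hcon
      simp only [Set.mem_union, Set.mem_preimage, not_or] at hcon
      obtain ⟨h1, h2, h3, h4⟩ := hcon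
      have h5 : z ∈ sec A 0 ↔ r L z ∈ S := by
        by_contra h
        apply h1
        rw [hE, Set.mem_symmDiff]
        by_cases hh : z ∈ sec A 0
        · left; exact ⟨hh, fun h' => h ⟨fun _ => h', fun _ => hh⟩⟩
        · right
          refine ⟨?_, hh⟩
          by_contra h'
          exact h ⟨fun h'' => absurd h'' hh, fun h'' => absurd h'' h'⟩
      have h6 : z + (n : ℤ_[2]) ∈ sec A 0 ↔ r L (z + (n : ℤ_[2])) ∈ S := by
        by_contra h
        apply h2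
        rw [hE, Set.mem_symmDiff]
        by_cases hh : z + (n : ℤ_[2]) ∈ sec A 0
        · left; exact ⟨hh, fun h' => h ⟨fun _ => h', fun _ => hh⟩⟩
        · right
          refine ⟨?_, hh⟩
          by_contra h'
          exact h ⟨fun h'' => absurd h'' hh, fun h'' => absurd h'' h'⟩
      have h7 : r L (z + (n : ℤ_[2])) ∈ S ↔ r L z ∈ S := mem_lev_add le_rfl S z
      have h8 : z + (n : ℤ_[2]) ∈ sec A 1 ↔ z ∈ sec A 0 := by
        have := mem_T_pow_iff hinv n (z, 0)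
        rw [T_pow_cN, show cN n z = 1 from hz, zero_add] at this
        exact this
      have h9 : z + (n : ℤ_[2]) ∈ sec A 0 ↔ z + (n : ℤ_[2]) ∈ sec A 1 := by
        rw [h6, h7, ← h5, h8]
      apply h3
      simp only [Set.mem_compl_iff, Set.mem_union, not_not] at h4
      rcases h4 with h4 | h4
      · exact ⟨h4, h9.mp h4⟩
      · exact ⟨h9.mpr h4, h4⟩
    have hc := cN_large (n := n) (Nat.one_le_two_pow)
    have hb : P {z | cN n z = 1} ≤ P E + (P E + (0 + 0)) := by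
      refine le_trans (measure_mono hsub) ?_
      refine le_trans (measure_union_le _ _) ?_
      gcongr
      refine le_trans (measure_union_le _ _) ?_
      rw [(mp_add (n : ℤ_[2])).measure_preimage hEm.nullMeasurableSet]
      gcongr
      refine le_trans (measure_union_le _ _) ?_
      rw [(mp_add (n : ℤ_[2])).measure_preimage (hA0.inter hA1).nullMeasurableSet,
        (mp_add (n : ℤ_[2])).measure_preimage (hA0.union hA1).compl.nullMeasurableSet, eI, eJ]
    have hfin : (8 : ℝ≥0∞)⁻¹ ≤ ENNReal.ofReal (1/32) + ENNReal.ofReal (1/32) := by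
      refine le_trans hc (le_trans hb ?_)
      rw [add_zero, add_zero]
      gcongr
    rw [← ENNReal.ofReal_add (by norm_num) (by norm_num)] at hfin
    have h8 : (8 : ℝ≥0∞)⁻¹ = ENNReal.ofReal (1/8) := by
      rw [ENNReal.ofReal_div_of_pos (by norm_num)]; simp
    rw [h8, ENNReal.ofReal_le_ofReal_iff (by norm_num)] at hfin
    norm_num at hfin
  · right
    rw [ae_eq_univ] at eI ⊢
    rw [m_apply hA.compl]
    have h0 : P (sec Aᶜ 0) = 0 := by
      refine measure_mono_null ?_ eI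
      intro z hz hz'
      exact hz hz'.1
    have h1 : P (sec Aᶜ 1) = 0 := by
      refine measure_mono_null ?_ eI
      intro z hz hz'
      exact hz hz'.2
    rw [h0, h1]; simp

end Pool.Agent.X194.TP
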