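import Pool.Agent.X194.TP.Erg

open MeasureTheory Filter Topology Set
open scoped ENNReal symmDiff

namespace Pool.Agent.X194.TP

/-- `z` has digits `j` at places `K, K+1` -/
def D (K j : ℕ) : Set ℤ_[2] := {z | r (K + 2) z / 2 ^ K = j}

theorem measurableSet_D (K j : ℕ) : MeasurableSet (D K j) :=
  measurableSet_r (K + 2) (fun n => n / 2 ^ K = j)

theorem D_lt (K : ℕ) (z : ℤ_[2]) : r (K + 2) z / 2 ^ K < 4 := by
  have h := r_lt (K + 2) z
  rw [Nat.div_lt_iff_lt_mul (by positivity)]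
  calc r (K + 2) z < 2 ^ (K + 2) := h
    _ = 4 * 2 ^ K := by ring

theorem D_add (K j : ℕ) (hj : j < 3) (z : ℤ_[2]) :
    z + ((2 ^ K : ℕ) : ℤ_[2]) ∈ D K (j + 1) ↔ z ∈ D K j := by
  simp only [D, Set.mem_ofPred_eq]
  rw [r_add_nat]
  have h1 : 2 ^ (K + 2) = 2 ^ K * 4 := by ring
  rw [h1, Nat.mod_mul_right_div_self, Nat.add_div_right _ (by positivity)]
  have h2 := D_lt K z
  generalize r (K + 2) z / 2 ^ K = q at h2 ⊢
  omega

theorem P_D_inter {L K : ℕ} (h : L ≤ K) (S : Set ℕ) :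
    P {z | r L z ∈ S} = 4 * P (D K 1 ∩ {z | r L z ∈ S}) := by
  have hSm : MeasurableSet {z : ℤ_[2] | r L z ∈ S} := measurableSet_r L (· ∈ S)
  have hstep : ∀ j < 3, P (D K j ∩ {z | r L z ∈ S}) = P (D K (j + 1) ∩ {z | r L z ∈ S}) := by
    intro j hj
    rw [← (mp_add ((2 ^ K : ℕ) : ℤ_[2])).measure_preimage
      ((measurableSet_D K (j + 1)).inter hSm).nullMeasurableSet]
    congr 1
    ext z
    simp only [Set.mem_inter_iff, Set.mem_preimage]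
    rw [D_add K j hj]
    refine and_congr_right fun _ => ?_
    exact (mem_lev_add h S z).symm
  have hU : {z : ℤ_[2] | r L z ∈ S} = ⋃ j ∈ Finset.range 4, D K j ∩ {z | r L z ∈ S} := by
    ext z
    simp only [Set.mem_ofPred_eq, Set.mem_iUnion, Finset.mem_range, Set.mem_inter_iff, exists_prop]
    exact ⟨fun hz => ⟨_, D_lt K z, rfl, hz⟩, fun ⟨_, _, _, hz⟩ => hz⟩
  rw [hU, measure_biUnion_finset, ← hU]
  · rw [Finset.sum_range_succ, Finset.sum_range_succ, Finset.sum_range_succ, Finset.sum_range_one,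
      hstep 0 (by norm_num), ← hstep 2 (by norm_num), ← hstep 1 (by norm_num)]
    ring
  · intro a _ b _ hab
    rw [Function.onFun, Set.disjoint_left]
    rintro z ⟨hz, _⟩ ⟨hz', _⟩
    exact hab (hz.symm.trans hz')
  · intro a _
    exact (measurableSet_D K a).inter hSm

theorem cN_D {K : ℕ} {z : ℤ_[2]} (hz : z ∈ D K 1) : cN (2 ^ K) z = 0 := by
  have h0 : r (K + 2) z / 2 ^ K = 1 := hz
  obtain ⟨s, hs, hlt⟩ : ∃ s, r (K + 2) z = s + 2 ^ K * 1 ∧ s < 2 ^ K := by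
    refine ⟨r (K + 2) z % 2 ^ K, ?_, Nat.mod_lt _ (by positivity)⟩
    have := Nat.mod_add_div (r (K + 2) z) (2 ^ K)
    rw [h0] at this
    exact this.symm
  have hp : 2 ^ (K + 2) = 4 * 2 ^ K := by ring
  have h1 : r (K + 2) z + 2 ^ K = s + 2 ^ K * 2 := by omega
  rw [cN_eq (K := K + 2) (by omega), h1, hs, t_add _ _ _ hlt, t_add _ _ _ hlt, t_one, t_two]
  linear_combination z2_self (t s) + z2_self 1

theorem pr_sec {B : Set ℤ_[2]} (hB : MeasurableSet B) {ε : ℝ≥0∞} (hε : 0 < ε) (hε' : ε ≠ ⊤) :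
    ∀ᶠ K : ℕ in atTop, P B ≤
      4 * P (B ∩ D K 1 ∩ (fun z => z + ((2 ^ K : ℕ) : ℤ_[2])) ⁻¹' B) + 9 * ε := by
  obtain ⟨L, S, hLS⟩ := exists_approx hB (ENNReal.toReal_pos hε.ne' hε')
  rw [ENNReal.ofReal_toReal hε'] at hLS
  filter_upwards [eventually_ge_atTop L] with K hK
  set E := B ∆ {z | r L z ∈ S} with hE
  have hEm : MeasurableSet E := hB.symmDiff (measurableSet_r L (· ∈ S))
  have hmem : ∀ z, z ∉ E → (z ∈ B ↔ r L z ∈ S) := by
    intro z h1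
    by_contra h
    apply h1
    rw [hE, Set.mem_symmDiff]
    by_cases hh : z ∈ B
    · left; exact ⟨hh, fun h' => h ⟨fun _ => h', fun _ => hh⟩⟩
    · right
      refine ⟨?_, hh⟩
      by_contra h'
      exact h ⟨fun h'' => absurd h'' hh, fun h'' => absurd h'' h'⟩
  have h1 : P B ≤ P {z | r L z ∈ S} + P E := by
    refine le_trans (measure_mono ?_) (measure_union_le _ _)
    intro z hz
    by_cases h : z ∈ E
    · right; exact h
    · left; exact (hmem z h).mp hz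
  have h2 : P (D K 1 ∩ {z | r L z ∈ S}) ≤
      P (B ∩ D K 1 ∩ (fun z => z + ((2 ^ K : ℕ) : ℤ_[2])) ⁻¹' B) + (P E + P E) := by
    have hsub : D K 1 ∩ {z | r L z ∈ S} ⊆
        (B ∩ D K 1 ∩ (fun z => z + ((2 ^ K : ℕ) : ℤ_[2])) ⁻¹' B) ∪
          (E ∪ (fun z => z + ((2 ^ K : ℕ) : ℤ_[2])) ⁻¹' E) := by
      rintro z ⟨hz1, hz2⟩
      by_cases ha : z ∈ E
      · right; left; exact ha
      by_cases hb : z + ((2 ^ K : ℕ) : ℤ_[2]) ∈ E
      · right; right; exact hb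
      left
      refine ⟨⟨(hmem z ha).mpr hz2, hz1⟩, ?_⟩
      exact (hmem _ hb).mpr ((mem_lev_add hK S z).mpr hz2)
    refine le_trans (measure_mono hsub) (le_trans (measure_union_le _ _) ?_)
    gcongr
    refine le_trans (measure_union_le _ _) ?_
    rw [(mp_add ((2 ^ K : ℕ) : ℤ_[2])).measure_preimage hEm.nullMeasurableSet]
  calc P B ≤ P {z | r L z ∈ S} + P E := h1
    _ = 4 * P (D K 1 ∩ {z | r L z ∈ S}) + P E := by rw [← P_D_inter hK S]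
    _ ≤ 4 * (P (B ∩ D K 1 ∩ (fun z => z + ((2 ^ K : ℕ) : ℤ_[2])) ⁻¹' B) + (P E + P E)) + P E := by
        gcongr
    _ ≤ 4 * (P (B ∩ D K 1 ∩ (fun z => z + ((2 ^ K : ℕ) : ℤ_[2])) ⁻¹' B) + (ε + ε)) + ε := by
        gcongr
    _ = _ := by ring

theorem pr_T {A : Set Om} (hA : MeasurableSet A) {ε : ℝ≥0∞} (hε : 0 < ε) (hε' : ε ≠ ⊤) :
    ∀ᶠ K : ℕ in atTop, m A ≤ 4 * m (A ∩ ((T ^ (2 ^ K) : Equiv.Perm Om)) ⁻¹' A) + 9 * ε := by
  filter_upwards [pr_sec (measurableSet_sec hA 0) hε hε', pr_sec (measurableSet_sec hA 1) hε hε']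
    with K h0 h1
  have hmeas : MeasurableSet (A ∩ ((T ^ (2 ^ K) : Equiv.Perm Om)) ⁻¹' A) := hA.inter (measurable_T_pow _ hA)
  have hs : ∀ e, sec A e ∩ D K 1 ∩ (fun z => z + ((2 ^ K : ℕ) : ℤ_[2])) ⁻¹' sec A e ⊆
      sec (A ∩ ((T ^ (2 ^ K) : Equiv.Perm Om)) ⁻¹' A) e := by
    rintro e z ⟨⟨hz1, hz2⟩, hz3⟩
    refine ⟨hz1, ?_⟩
    rw [Set.mem_preimage, T_pow_cN, cN_D hz2, add_zero]
    exact hz3
  rw [m_apply hA, m_apply hmeas]
  have g0 := h0.trans (add_le_add (mul_le_mul_right (measure_mono (hs 0)) _) le_rfl)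
  have g1 := h1.trans (add_le_add (mul_le_mul_right (measure_mono (hs 1)) _) le_rfl)
  calc 2⁻¹ * (P (sec A 0) + P (sec A 1)) ≤ 2⁻¹ * ((4 * P (sec (A ∩ ((T ^ (2 ^ K) : Equiv.Perm Om)) ⁻¹' A) 0) + 9 * ε)
        + (4 * P (sec (A ∩ ((T ^ (2 ^ K) : Equiv.Perm Om)) ⁻¹' A) 1) + 9 * ε)) := by gcongr
    _ = 4 * (2⁻¹ * (P (sec (A ∩ ((T ^ (2 ^ K) : Equiv.Perm Om)) ⁻¹' A) 0) + P (sec (A ∩ ((T ^ (2 ^ K) : Equiv.Perm Om)) ⁻¹' A) 1)))
        + (2⁻¹ * 2) * (9 * ε) := by ring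
    _ = _ := by rw [ENNReal.inv_mul_cancel (by norm_num) (by norm_num), one_mul]

end Pool.Agent.X194.TP
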