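import Pool.Agent.X194.TP.Basic

open MeasureTheory Filter Topology Set
open scoped ENNReal

namespace Pool.Agent.X194.TP

abbrev Om := ℤ_[2] × ZMod 2

theorem z2_self (a : ZMod 2) : a + a = 0 := CharTwo.add_self_eq_zero a

theorem z2_cases (a : ZMod 2) : a = 0 ∨ a = 1 := by
  fin_cases a
  · left; rfl
  · right; rfl

theorem r_split {k K : ℕ} (h : k ≤ K) (z : ℤ_[2]) :
    r K z = r k z + 2 ^ k * (r K z / 2 ^ k) := by
  rw [← r_mod h z, Nat.mod_add_div]

theorem t_cons {k K : ℕ} (h : k ≤ K) (z : ℤ_[2]) {a : ℕ} (h1 : r k z + a < 2 ^ k) :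
    t (r K z + a) + t (r K z) = t (r k z + a) + t (r k z) := by
  have h2 := r_split h z
  have h3 : r K z + a = (r k z + a) + 2 ^ k * (r K z / 2 ^ k) := by omega
  rw [h3, t_add k _ _ h1]
  nth_rewrite 2 [h2]
  rw [t_add k _ _ (r_lt k z)]
  linear_combination z2_self (t (r K z / 2 ^ k))

/-- The set where the cocycle is `1`. -/
def S1 : Set ℤ_[2] := {z | ∃ K, r K z + 1 < 2 ^ K ∧ t (r K z + 1) + t (r K z) = 1}

open Classical in
/-- The cocycle. -/
noncomputable def c1 (z : ℤ_[2]) : ZMod 2 := if z ∈ S1 then 1 else 0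

theorem c1_eq {K : ℕ} {z : ℤ_[2]} (h : r K z + 1 < 2 ^ K) :
    c1 z = t (r K z + 1) + t (r K z) := by
  unfold c1
  split_ifs with hz
  · obtain ⟨K', h1, h2⟩ := hz
    rcases le_total K K' with h3 | h3
    · rw [← h2, t_cons h3 z h]
    · rw [← h2, t_cons h3 z h1]
  · rcases z2_cases (t (r K z + 1) + t (r K z)) with h1 | h1
    · exact h1.symm
    · exact absurd ⟨K, h, h1⟩ hz

theorem measurableSet_S1 : MeasurableSet S1 := by
  have : S1 = ⋃ K, {z | (fun n => n + 1 < 2 ^ K ∧ t (n + 1) + t n = 1) (r K z)} := by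
    ext z; simp [S1]
  rw [this]
  exact MeasurableSet.iUnion fun K => measurableSet_r K (fun n => n + 1 < 2 ^ K ∧ t (n + 1) + t n = 1)

theorem measurable_c1 : Measurable c1 := by
  classical
  unfold c1
  exact Measurable.ite measurableSet_S1 measurable_const measurable_const

/-- The skew product. -/
noncomputable def T : Equiv.Perm Om where
  toFun ω := (ω.1 + 1, ω.2 + c1 ω.1)
  invFun ω := (ω.1 - 1, ω.2 + c1 (ω.1 - 1))
  left_inv ω := by
    ext
    · simp
    · simp only [add_sub_cancel_right]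
      rw [add_assoc, z2_self, add_zero]
  right_inv ω := by
    ext
    · simp
    · simp only
      rw [add_assoc, z2_self, add_zero]

theorem T_apply (z : ℤ_[2]) (e : ZMod 2) : T (z, e) = (z + 1, e + c1 z) := rfl

theorem measurable_T : Measurable T := by
  have h1 : Measurable (fun ω : Om => ω.1 + 1) := by
    have : Measurable (fun z : ℤ_[2] => z + 1) := by fun_prop
    exact this.comp measurable_fst
  have h2 : Measurable (fun ω : Om => ω.2 + c1 ω.1) := by
    have : Measurable (fun q : ZMod 2 × ZMod 2 => q.1 + q.2) := measurable_from_prod_countable_left (fun _ => Measurable.of_discrete)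
    exact this.comp (measurable_snd.prodMk (measurable_c1.comp measurable_fst))
  exact h1.prodMk h2

theorem measurable_T_symm : Measurable T.symm := by
  have h1 : Measurable (fun ω : Om => ω.1 - 1) := by
    have : Measurable (fun z : ℤ_[2] => z - 1) := by fun_prop
    exact this.comp measurable_fst
  have h2 : Measurable (fun ω : Om => ω.2 + c1 (ω.1 - 1)) := by
    have : Measurable (fun q : ZMod 2 × ZMod 2 => q.1 + q.2) := measurable_from_prod_countable_left (fun _ => Measurable.of_discrete)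
    exact this.comp (measurable_snd.prodMk (measurable_c1.comp h1))
  exact h1.prodMk h2

theorem measurable_T_pow (n : ℕ) : Measurable ((T ^ n : Equiv.Perm Om)) := by
  induction n with
  | zero => exact measurable_id
  | succ n ih =>
    rw [pow_succ']
    exact measurable_T.comp ih

theorem measurable_T_zpow (n : ℤ) : Measurable ((T ^ n : Equiv.Perm Om)) := by
  have hs : ∀ n : ℕ, Measurable ((T⁻¹ ^ n : Equiv.Perm Om)) := by
    intro n
    induction n with
    | zero => exact measurable_id
    | succ n ih =>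
      rw [pow_succ']
      exact measurable_T_symm.comp ih
  obtain ⟨m, rfl | rfl⟩ := Int.eq_nat_or_neg n
  · rw [zpow_natCast]; exact measurable_T_pow m
  · rw [zpow_neg, zpow_natCast, ← inv_pow]; exact hs m

theorem T_zpow_fst (n : ℤ) (ω : Om) : ((T ^ n) ω).1 = ω.1 + n := by
  have hp : ∀ (n : ℕ) (ω : Om), ((T ^ n) ω).1 = ω.1 + n := by
    intro n
    induction n with
    | zero => intro ω; simp
    | succ n ih =>
      intro ω
      rw [pow_succ', Equiv.Perm.mul_apply]
      have : ∀ η : Om, (T η).1 = η.1 + 1 := fun η => rfl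
      rw [this, ih]; push_cast; ring
  obtain ⟨m, rfl | rfl⟩ := Int.eq_nat_or_neg n
  · rw [zpow_natCast, hp]; simp
  · have h1 := hp m ((T ^ (-(m:ℤ))) ω)
    rw [← zpow_natCast, ← Equiv.Perm.mul_apply, ← zpow_add, add_neg_cancel, zpow_zero] at h1
    simp only [Equiv.Perm.coe_one, id] at h1
    rw [h1]; push_cast; ring

theorem T_pow_eq (K : ℕ) (n : ℕ) : ∀ (z : ℤ_[2]) (e : ZMod 2), r K z + n < 2 ^ K →
    (T ^ n) (z, e) = (z + n, e + t (r K z) + t (r K z + n)) := by
  induction n with
  | zero => intro z e _; simp [add_assoc, z2_self]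
  | succ n ih =>
    intro z e h
    rw [pow_succ', Equiv.Perm.mul_apply, ih z e (by omega), T_apply]
    have h1 : r K (z + n) = r K z + n := by
      rw [r_add_nat, Nat.mod_eq_of_lt (by omega)]
    rw [c1_eq (K := K) (by rw [h1]; omega), h1]
    ext
    · push_cast; ring
    · simp only
      rw [add_assoc (r K z) n 1]
      linear_combination z2_self (t (r K z + n))

theorem T_zpow_eq (K : ℕ) (n : ℤ) (z : ℤ_[2]) (e : ZMod 2) (m : ℕ) (hm : (m : ℤ) = r K z + n)
    (h : m < 2 ^ K) : (T ^ n) (z, e) = (z + n, e + t (r K z) + t m) := by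
  obtain ⟨j, rfl | rfl⟩ := Int.eq_nat_or_neg n
  · have h1 : m = r K z + j := by exact_mod_cast hm
    subst h1
    rw [zpow_natCast, T_pow_eq K j z e h]
    simp
  · have h1 : (r K (z + ((-(j:ℤ) : ℤ) : ℤ_[2])) : ℤ) = r K z + (-(j:ℤ)) :=
      r_add_int K z _ (by omega) (by rw [← hm]; exact_mod_cast h)
    have h2 : r K (z + ((-(j:ℤ) : ℤ) : ℤ_[2])) = m := by
      rw [← hm] at h1; exact_mod_cast h1
    have h3 : m + j = r K z := by omega
    have h4 := T_pow_eq K j (z + ((-(j:ℤ) : ℤ) : ℤ_[2])) (e + t (r K z) + t m)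
      (by rw [h2, h3]; exact r_lt K z)
    rw [h2, h3] at h4
    have h5 : z + ((-(j:ℤ) : ℤ) : ℤ_[2]) + (j : ℤ_[2]) = z := by push_cast; ring
    have h6 : e + t (r K z) + t m + t m + t (r K z) = e := by
      linear_combination z2_self (t m) + z2_self (t (r K z))
    rw [h5, h6] at h4
    rw [← h4, ← zpow_natCast, ← Equiv.Perm.mul_apply, ← zpow_add, neg_add_cancel, zpow_zero]
    rfl

/-- cocycle of `T ^ n` -/
noncomputable def cN (n : ℕ) (z : ℤ_[2]) : ZMod 2 := ((T ^ n) (z, 0)).2

theorem T_pow_cN (n : ℕ) (z : ℤ_[2]) (e : ZMod 2) : (T ^ n) (z, e) = (z + n, e + cN n z) := by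
  have : ∀ n : ℕ, ∀ e, ((T ^ n) (z, e)).2 = e + ((T ^ n) (z, 0)).2 := by
    intro n
    induction n with
    | zero => intro e; simp
    | succ n ih =>
      intro e
      rw [pow_succ', Equiv.Perm.mul_apply, Equiv.Perm.mul_apply]
      have h1 : ∀ η : Om, (T η).2 = η.2 + c1 η.1 := fun η => rfl
      have h2 : ∀ e, ((T ^ n) (z, e)).1 = z + n := by
        intro e
        have := T_zpow_fst n (z, e)
        rw [zpow_natCast] at this
        rw [this]; simp
      rw [h1, h1, h2, h2, ih e]; ring
  ext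
  · have := T_zpow_fst n (z, e)
    rw [zpow_natCast] at this
    rw [this]; simp
  · exact this n e

theorem cN_eq {K n : ℕ} {z : ℤ_[2]} (h : r K z + n < 2 ^ K) :
    cN n z = t (r K z) + t (r K z + n) := by
  unfold cN
  rw [T_pow_eq K n z 0 h]
  simp

theorem measurable_cN (n : ℕ) : Measurable (cN n) :=
  measurable_snd.comp ((measurable_T_pow n).comp (measurable_id.prodMk measurable_const))

/-- the measure on `Om` -/
noncomputable def m : Measure Om :=
  (2 : ℝ≥0∞)⁻¹ • (P.map (fun z => (z, (0 : ZMod 2))) + P.map (fun z => (z, (1 : ZMod 2))))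

/-- section -/
def sec (A : Set Om) (e : ZMod 2) : Set ℤ_[2] := {z | (z, e) ∈ A}

theorem measurableSet_sec {A : Set Om} (hA : MeasurableSet A) (e : ZMod 2) :
    MeasurableSet (sec A e) :=
  (measurable_id.prodMk measurable_const) hA

theorem m_apply {A : Set Om} (hA : MeasurableSet A) :
    m A = 2⁻¹ * (P (sec A 0) + P (sec A 1)) := by
  unfold m
  rw [Measure.smul_apply, Measure.add_apply, Measure.map_apply (by fun_prop) hA,
    Measure.map_apply (by fun_prop) hA]
  rfl

instance : IsProbabilityMeasure m := ⟨by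
  rw [m_apply MeasurableSet.univ]
  have : ∀ e, sec univ e = univ := fun e => rfl
  rw [this, this, measure_univ, one_add_one_eq_two, ENNReal.inv_mul_cancel (by norm_num) (by norm_num)]⟩

theorem mp_T : MeasurePreserving T m m := by
  refine ⟨measurable_T, ?_⟩
  ext A hA
  rw [Measure.map_apply measurable_T hA, m_apply (measurable_T hA), m_apply hA]
  congr 1
  have hs : ∀ e, P (sec A e) = P ((fun z => z + 1) ⁻¹' sec A e) := fun e =>
    ((mp_add 1).measure_preimage (measurableSet_sec hA e).nullMeasurableSet).symm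
  rw [hs 0, hs 1]
  rw [← measure_inter_add_sdiff (sec (T ⁻¹' A) 0) measurableSet_S1,
    ← measure_inter_add_sdiff (sec (T ⁻¹' A) 1) measurableSet_S1,
    ← measure_inter_add_sdiff ((fun z => z + 1) ⁻¹' sec A 0) measurableSet_S1,
    ← measure_inter_add_sdiff ((fun z => z + 1) ⁻¹' sec A 1) measurableSet_S1]
  have h1 : sec (T ⁻¹' A) 0 ∩ S1 = ((fun z => z + 1) ⁻¹' sec A 1) ∩ S1 := by
    ext z
    simp only [sec, Set.mem_inter_iff, Set.mem_preimage, Set.mem_ofPred_eq, T_apply]
    refine and_congr_left fun hz => ?_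
    simp [c1, hz]
  have h2 : sec (T ⁻¹' A) 1 ∩ S1 = ((fun z => z + 1) ⁻¹' sec A 0) ∩ S1 := by
    ext z
    simp only [sec, Set.mem_inter_iff, Set.mem_preimage, Set.mem_ofPred_eq, T_apply]
    refine and_congr_left fun hz => ?_
    simp [c1, hz, z2_self]
  have h3 : sec (T ⁻¹' A) 0 \ S1 = ((fun z => z + 1) ⁻¹' sec A 0) \ S1 := by
    ext z
    simp only [sec, Set.mem_sdiff, Set.mem_preimage, Set.mem_ofPred_eq, T_apply]
    refine and_congr_left fun hz => ?_
    simp [c1, hz]
  have h4 : sec (T ⁻¹' A) 1 \ S1 = ((fun z => z + 1) ⁻¹' sec A 1) \ S1 := by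
    ext z
    simp only [sec, Set.mem_sdiff, Set.mem_preimage, Set.mem_ofPred_eq, T_apply]
    refine and_congr_left fun hz => ?_
    simp [c1, hz]
  rw [h1, h2, h3, h4]
  ring

theorem mp_T_pow (n : ℕ) : MeasurePreserving ((T ^ n : Equiv.Perm Om)) m m := by
  induction n with
  | zero => exact MeasurePreserving.id m
  | succ n ih =>
    rw [pow_succ']
    exact mp_T.comp ih

end Pool.Agent.X194.TP
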